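import Mathlib

/-!
A standard discrete poset without maximal elements which supports no constant rate distribution.

The poset `Comb` is a chain `c 0 < c 1 < c 2 < ...` together with, for every `n`, exactly `n!`
minimal elements `z n j` (`j < n!`) whose strict upper bounds are the `c k` with `k ≥ n`. If a
distribution has constant rate `α` then `F (c n) = (1 - α)^n F (c 0)` with `1 - α > 0`, and
`f (z n j) = α F (z n j) ≥ α F (c n)`, so the total mass of `z n 0, z n 1, ...` is at least
`n! α (1 - α)^n F (c 0)`, which is unbounded.
-/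

namespace Pool.Agent.Results.MP_5a8271_pr.NoConstantRate

open MeasureTheory

/-- The elements of the poset: a chain `c n` and `n!` further elements `z n j` for every `n`. -/
inductive Comb : Type
  | c (n : ℕ) : Comb
  | z (n : ℕ) (j : Fin n.factorial) : Comb

namespace Comb

/-- The order: `c m ≤ c n` iff `m ≤ n`; `z k j ≤ c n` iff `k ≤ n`; `z k j ≤ z l i` iff they are
equal; `c m ≤ z k j` never. -/
def le : Comb → Comb → Prop
  | c m, c n => m ≤ n
  | z k _, c n => k ≤ n
  | z k j, z l i => (⟨k, j⟩ : Σ n : ℕ, Fin n.factorial) = ⟨l, i⟩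
  | c _, z _ _ => False

instance : PartialOrder Comb where
  le := le
  le_refl := by
    rintro (n | ⟨n, j⟩) <;> simp [le]
  le_trans := by
    rintro (n | ⟨n, j⟩) (m | ⟨m, i⟩) (k | ⟨k, l⟩) h1 h2 <;> simp only [le] at h1 h2 ⊢
    · exact h1.trans h2
    · exact h1.trans h2
    · obtain ⟨rfl, _⟩ := Sigma.mk.inj_iff.1 h1
      exact h2
    · exact h1.trans h2
  le_antisymm := by
    rintro (n | ⟨n, j⟩) (m | ⟨m, i⟩) h1 h2 <;> simp only [le] at h1 h2
    · rw [le_antisymm h1 h2]
    · obtain ⟨rfl, h⟩ := Sigma.mk.inj_iff.1 h1
      rw [eq_of_heq h]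

lemma c_le_c {m n : ℕ} : c m ≤ c n ↔ m ≤ n := Iff.rfl
lemma z_le_c {k n : ℕ} {j : Fin k.factorial} : z k j ≤ c n ↔ k ≤ n := Iff.rfl
lemma not_c_le_z {k n : ℕ} {j : Fin k.factorial} : ¬ c n ≤ z k j := fun h => h

lemma z_le_z {k l : ℕ} {j : Fin k.factorial} {i : Fin l.factorial} :
    z k j ≤ z l i ↔ z k j = z l i := by
  constructor
  · intro h
    have h' : (⟨k, j⟩ : Σ n : ℕ, Fin n.factorial) = ⟨l, i⟩ := h
    obtain ⟨rfl, h2⟩ := Sigma.mk.inj_iff.1 h'
    rw [eq_of_heq h2]
  · intro h
    rw [h]

/-- coding of the poset -/
def code : Comb → ℕ ⊕ (Σ n : ℕ, Fin n.factorial)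
  | c n => Sum.inl n
  | z n j => Sum.inr ⟨n, j⟩

lemma code_injective : Function.Injective code := by
  rintro (n | ⟨n, j⟩) (m | ⟨m, i⟩) h
  · simpa [code] using h
  · simp [code] at h
  · simp [code] at h
  · simp only [code, Sum.inr.injEq] at h
    obtain ⟨rfl, h2⟩ := Sigma.mk.inj_iff.1 h
    rw [eq_of_heq h2]

instance : Countable Comb := code_injective.countable

lemma finite_Iic (x : Comb) : (Set.Iic x).Finite := by
  rcases x with n | ⟨n, j⟩
  · have h : Set.Iic (c n) ⊆
        (c '' Set.Iic n) ∪ (⋃ k ∈ Set.Iic n, Set.range (fun j : Fin k.factorial => z k j)) := by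
      rintro (m | ⟨m, i⟩) hm
      · exact Or.inl ⟨m, hm, rfl⟩
      · right
        rw [Set.mem_iUnion₂]
        exact ⟨m, hm, i, rfl⟩
    refine Set.Finite.subset ?_ h
    refine ((Set.finite_Iic n).image _).union ?_
    exact (Set.finite_Iic n).biUnion fun k _ => Set.finite_range _
  · have h : Set.Iic (z n j) ⊆ {z n j} := by
      rintro (m | ⟨m, i⟩) hm
      · exact absurd (show c m ≤ z n j from hm) not_c_le_z
      · exact z_le_z.1 hm
    exact (Set.finite_singleton _).subset h

lemma not_isMax (x : Comb) : ¬ IsMax x := by
  rcases x with n | ⟨n, j⟩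
  · intro h
    have h1 : c n ≤ c (n + 1) := c_le_c.2 (Nat.le_succ n)
    have h2 := c_le_c.1 (h h1)
    omega
  · intro h
    have h1 : z n j ≤ c n := z_le_c.2 le_rfl
    exact not_c_le_z (h h1)

end Comb

open Comb

/-- `S` (with its partial order) supports a distribution of constant rate: there are a probability
measure `μ` on the discrete space `S` and `α > 0` such that the upper probability function
`F x = μ {y | x ≤ y}` is positive everywhere and the density `f x = μ {x}` satisfies
`f x = α F x` for all `x`. -/
def SupportsConstantRate (S : Type) [PartialOrder S] : Prop :=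
  ∃ (μ : @Measure S ⊤) (α : ℝ), @IsProbabilityMeasure S ⊤ μ ∧ 0 < α ∧
    (∀ x : S, 0 < (μ {y | x ≤ y}).toReal) ∧
    ∀ x : S, (μ {x}).toReal = α * (μ {y | x ≤ y}).toReal

/-- **A standard discrete poset without maximal elements need not support a constant rate
distribution.** There is a nonempty countable partially ordered set `S` in which every down-set
`D[x]` is finite and no element is maximal, such that no distribution on `S` has constant rate. -/
theorem result : ∃ (S : Type) (_ : PartialOrder S), Nonempty S ∧ Countable S ∧
    (∀ x : S, {y : S | y ≤ x}.Finite) ∧ (∀ x : S, ∃ y : S, y ≠ x ∧ x ≤ y) ∧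
    ¬ SupportsConstantRate S := by
  refine ⟨Comb, inferInstance, ⟨c 0⟩, inferInstance, finite_Iic, ?_, ?_⟩
  · rintro (n | ⟨n, j⟩)
    · refine ⟨c (n + 1), ?_, c_le_c.2 (Nat.le_succ n)⟩
      intro h
      have := code_injective.eq_iff.2 h
      simp [code] at this
    · refine ⟨c n, ?_, z_le_c.2 le_rfl⟩
      intro h
      have := code_injective.eq_iff.2 h
      simp [code] at this
  · rintro ⟨μ, α, hμ, hα, hpos, hrate⟩
    let _ : MeasurableSpace Comb := ⊤
    have _ : IsProbabilityMeasure μ := hμ
    have hms : MeasurableSingletonClass Comb := ⟨fun _ => trivial⟩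
    set F : Comb → ℝ := fun x => (μ {y | x ≤ y}).toReal with hF
    have hup : ∀ n, {y : Comb | c n ≤ y} = {c n} ∪ {y | c (n + 1) ≤ y} := by
      intro n
      ext y
      rcases y with m | ⟨m, i⟩
      · simp only [Set.mem_ofPred_eq, c_le_c, Set.mem_union, Set.mem_singleton_iff]
        constructor
        · intro h
          rcases Nat.eq_or_lt_of_le h with h | h
          · left; rw [h]
          · right; exact h
        · rintro (h | h)
          · have := code_injective.eq_iff.2 h
            simp [code] at this
            omega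
          · omega
      · simp only [Set.mem_ofPred_eq, Set.mem_union, Set.mem_singleton_iff]
        constructor
        · intro h; exact absurd h not_c_le_z
        · rintro (h | h)
          · have := code_injective.eq_iff.2 h
            simp [code] at this
          · exact absurd h not_c_le_z
    have hstep : ∀ n, F (c (n + 1)) = (1 - α) * F (c n) := by
      intro n
      have h1 : F (c n) = (μ {c n}).toReal + F (c (n + 1)) := by
        simp only [hF]
        have hms2 : MeasurableSet {y : Comb | c (n + 1) ≤ y} := trivial
        rw [hup n, measure_union _ hms2, ENNReal.toReal_add (measure_ne_top μ _)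
          (measure_ne_top μ _)]
        rw [Set.disjoint_left]
        intro y hy hy2
        rw [Set.mem_singleton_iff] at hy
        subst hy
        have h2 := c_le_c.1 hy2
        omega
      have h2 := hrate (c n)
      have h3 : (μ {c n}).toReal = α * F (c n) := h2
      linarith
    have hF0 : ∀ x, 0 < F x := hpos
    have ha1 : 0 < 1 - α := by
      have h1 := hstep 0
      have h2 := hF0 (c 0)
      have h3 := hF0 (c 1)
      rw [zero_add] at h1
      rw [h1] at h3
      by_contra hneg
      push Not at hneg
      nlinarith
    have hpow : ∀ n, F (c n) = (1 - α) ^ n * F (c 0) := by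
      intro n
      induction n with
      | zero => simp
      | succ n ih => rw [hstep, ih, pow_succ]; ring
    have hz : ∀ n (j : Fin n.factorial), α * F (c n) ≤ (μ {z n j}).toReal := by
      intro n j
      rw [hrate (z n j)]
      apply mul_le_mul_of_nonneg_left _ hα.le
      apply ENNReal.toReal_mono (measure_ne_top μ _)
      apply measure_mono
      intro y hy
      exact le_trans (z_le_c.2 le_rfl : z n j ≤ c n) hy
    have hsum : ∀ n : ℕ, (n.factorial : ℝ) * (α * F (c n)) ≤ 1 := by
      intro n
      have h1 : ∑ j : Fin n.factorial, (μ {z n j}).toReal ≤ 1 := by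
        have h2 : ∑ j : Fin n.factorial, μ {z n j} ≤ 1 := by
          have h3 : ∑ j : Fin n.factorial, μ {z n j} =
              μ (⋃ j ∈ (Finset.univ : Finset (Fin n.factorial)), {z n j}) := by
            rw [measure_biUnion_finset]
            · intro i _ j _ hij
              rw [Function.onFun, Set.disjoint_singleton]
              intro h
              have := code_injective.eq_iff.2 h
              simp only [code, Sum.inr.injEq, Sigma.mk.injEq, heq_eq_eq, true_and] at this
              exact hij this
            · intro j _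
              trivial
          rw [h3]
          exact prob_le_one
        have h4 : (∑ j : Fin n.factorial, μ {z n j}).toReal ≤ 1 := by
          have := ENNReal.toReal_mono ENNReal.one_ne_top h2
          simpa using this
        rwa [ENNReal.toReal_sum (fun j _ => measure_ne_top μ _)] at h4
      have h5 : ∑ _j : Fin n.factorial, (α * F (c n)) ≤ ∑ j : Fin n.factorial, (μ {z n j}).toReal :=
        Finset.sum_le_sum fun j _ => hz n j
      rw [Finset.sum_const, Finset.card_univ, Fintype.card_fin, nsmul_eq_mul] at h5
      exact h5.trans h1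
    have hlim := FloorSemiring.tendsto_pow_div_factorial_atTop (K := ℝ) (1 - α)⁻¹
    have hK : 0 < α * F (c 0) := mul_pos hα (hF0 _)
    have hev := hlim.eventually (gt_mem_nhds hK)
    obtain ⟨n, hn⟩ := hev.exists
    have hfac : (0 : ℝ) < n.factorial := by exact_mod_cast n.factorial_pos
    have h1 := hsum n
    rw [hpow n] at h1
    rw [div_lt_iff₀ hfac, inv_pow] at hn
    have hp : 0 < (1 - α) ^ n := pow_pos ha1 n
    have h2 : 1 < (1 - α) ^ n * (α * F (c 0) * n.factorial) := by
      calc (1 : ℝ) = (1 - α) ^ n * ((1 - α) ^ n)⁻¹ := (mul_inv_cancel₀ hp.ne').symm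
        _ < _ := mul_lt_mul_of_pos_left hn hp
    nlinarith

end Pool.Agent.Results.MP_5a8271_pr.NoConstantRate
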